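import Pool.Agent.H72.VPermDefs

/-!
# Generalized 3x+1 permutations all of whose orbits have small upper density

For every `a ≥ 1` the class of Q1 contains a map `T` (with `p = 2a+1`) which preserves all residue
classes modulo `a`, so that every orbit has upper density at most `1/a`, and which has an infinite
orbit in every residue class modulo `a`. For `a = 1` the multipliers are `2, 4, 4`, those of the
original Collatz permutation.
-/

namespace Pool.Agent.Variants.MP_153093_nt.SmallDensity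

open Pool.Agent.H72.VPerm

/-- The multipliers: `a + 1` (for `a` residues) and `(a + 1)^2` (for `a + 1` residues). -/
def mult (a : ℤ) (r : ℤ) : ℤ := if r < a then a + 1 else (a + 1) ^ 2

/-- The values `T(r)` for `0 ≤ r < p`. -/
def shft (a : ℤ) (r : ℤ) : ℤ := if r < a then r + 2 * a * (a + 1) else a + (a + 1) * (r - a)

/-- The map. -/
def TT (a : ℤ) (x : ℤ) : ℤ :=
  mult a (x % (2 * a + 1)) * (x / (2 * a + 1)) + shft a (x % (2 * a + 1))

theorem TT_eq (a : ℤ) (n r : ℤ) (h0 : 0 ≤ r) (h1 : r < 2 * a + 1) :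
    TT a ((2 * a + 1) * n + r) = mult a r * n + shft a r := by
  have hp : 0 < 2 * a + 1 := by linarith
  have e1 : ((2 * a + 1) * n + r) % (2 * a + 1) = r := by
    rw [add_comm, Int.add_mul_emod_self_left, Int.emod_eq_of_lt h0 h1]
  have e2 : ((2 * a + 1) * n + r) / (2 * a + 1) = n := by
    rw [add_comm, Int.add_mul_ediv_left _ _ hp.ne', Int.ediv_eq_zero_of_lt h0 h1, zero_add]
  unfold TT
  rw [e1, e2]

theorem repr (a : ℤ) (ha : 0 < a) (x : ℤ) :
    ∃ n r : ℤ, 0 ≤ r ∧ r < 2 * a + 1 ∧ x = (2 * a + 1) * n + r := by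
  have hp : 0 < 2 * a + 1 := by linarith
  exact ⟨x / (2 * a + 1), x % (2 * a + 1), Int.emod_nonneg _ hp.ne', Int.emod_lt_of_pos _ hp,
    (Int.mul_ediv_add_emod x _).symm⟩

theorem unique_rem {m q q' r r' : ℤ} (h0 : 0 ≤ r) (h1 : r < m) (h0' : 0 ≤ r')
    (h1' : r' < m) (h : m * q + r = m * q' + r') : q = q' ∧ r = r' := by
  have hm : 0 < m := by linarith
  have e1 : (m * q + r) % m = r := by
    rw [add_comm, Int.add_mul_emod_self_left, Int.emod_eq_of_lt h0 h1]
  have e2 : (m * q' + r') % m = r' := by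
    rw [add_comm, Int.add_mul_emod_self_left, Int.emod_eq_of_lt h0' h1']
  have hr : r = r' := by rw [← e1, ← e2, h]
  refine ⟨?_, hr⟩
  have : m * q = m * q' := by linarith
  exact mul_left_cancel₀ hm.ne' this

theorem TT_inj (a : ℤ) (ha : 0 < a) : Function.Injective (TT a) := by
  intro x y hxy
  obtain ⟨n, r, h0, h1, rfl⟩ := repr a ha x
  obtain ⟨n', r', h0', h1', rfl⟩ := repr a ha y
  rw [TT_eq a n r h0 h1, TT_eq a n' r' h0' h1'] at hxy
  unfold mult shft at hxy
  by_cases hr : r < a <;> by_cases hr' : r' < a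
  · rw [if_pos hr, if_pos hr, if_pos hr', if_pos hr'] at hxy
    have h2 := @unique_rem (a + 1) (n + 2 * a) (n' + 2 * a) r r' h0 (by linarith) h0'
      (by linarith) (by linear_combination hxy)
    have h3 : n = n' := by linarith [h2.1]
    rw [h3, h2.2]
  · exfalso
    rw [if_pos hr, if_pos hr, if_neg hr', if_neg hr'] at hxy
    have h2 := @unique_rem (a + 1) (n + 2 * a) ((a + 1) * n' + (r' - a)) r a h0 (by linarith)
      ha.le (by linarith) (by linear_combination hxy)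
    linarith [h2.2]
  · exfalso
    rw [if_neg hr, if_neg hr, if_pos hr', if_pos hr'] at hxy
    have h2 := @unique_rem (a + 1) (n' + 2 * a) ((a + 1) * n + (r - a)) r' a h0' (by linarith)
      ha.le (by linarith) (by linear_combination -hxy)
    linarith [h2.2]
  · rw [if_neg hr, if_neg hr, if_neg hr', if_neg hr'] at hxy
    push Not at hr hr'
    have h2 := @unique_rem (a + 1) ((a + 1) * n + (r - a)) ((a + 1) * n' + (r' - a)) a a ha.le
      (by linarith) ha.le (by linarith) (by linear_combination hxy)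
    have h3 := @unique_rem (a + 1) n n' (r - a) (r' - a) (by linarith) (by linarith)
      (by linarith) (by linarith) h2.1
    have h4 : r = r' := by linarith [h3.2]
    rw [h3.1, h4]

theorem TT_surj (a : ℤ) (ha : 0 < a) : Function.Surjective (TT a) := by
  intro y
  have hm : 0 < a + 1 := by linarith
  have e := Int.mul_ediv_add_emod y (a + 1)
  have g0 := Int.emod_nonneg y hm.ne'
  have g1 := Int.emod_lt_of_pos y hm
  by_cases hr : y % (a + 1) < a
  · refine ⟨(2 * a + 1) * (y / (a + 1) - 2 * a) + y % (a + 1), ?_⟩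
    rw [TT_eq a _ _ g0 (by linarith)]
    unfold mult shft
    rw [if_pos hr, if_pos hr]
    linear_combination e
  · have hr' : y % (a + 1) = a := by
      push Not at hr
      omega
    set q := y / (a + 1) with hq
    have e' := Int.mul_ediv_add_emod q (a + 1)
    have g0' := Int.emod_nonneg q hm.ne'
    have g1' := Int.emod_lt_of_pos q hm
    refine ⟨(2 * a + 1) * (q / (a + 1)) + (a + q % (a + 1)), ?_⟩
    rw [TT_eq a _ _ (by linarith) (by linarith)]
    unfold mult shft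
    rw [if_neg (by linarith), if_neg (by linarith)]
    rw [hr'] at e
    linear_combination e + (a + 1) * e'

/-- The permutation. -/
noncomputable def perm (a : ℤ) (ha : 0 < a) : Equiv.Perm ℤ :=
  Equiv.ofBijective (TT a) ⟨TT_inj a ha, TT_surj a ha⟩

theorem perm_apply (a : ℤ) (ha : 0 < a) (x : ℤ) : perm a ha x = TT a x := rfl

theorem prod_mult (a : ℕ) :
    ∏ r ∈ Finset.range (2 * a + 1), mult a (r : ℤ) = ((a : ℤ) + 1) ^ (3 * a + 2) := by
  have h1 : 2 * a + 1 = a + (a + 1) := by ring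
  rw [h1, Finset.prod_range_add]
  have h2 : ∏ r ∈ Finset.range a, mult a (r : ℤ) = ((a : ℤ) + 1) ^ a := by
    rw [Finset.prod_congr rfl (g := fun _ => (a : ℤ) + 1)]
    · simp
    · intro r hr
      unfold mult
      rw [if_pos (by exact_mod_cast Finset.mem_range.mp hr)]
  have h3 : ∏ r ∈ Finset.range (a + 1), mult a ((a + r : ℕ) : ℤ) = (((a : ℤ) + 1) ^ 2) ^ (a + 1) := by
    rw [Finset.prod_congr rfl (g := fun _ => ((a : ℤ) + 1) ^ 2)]
    · simp
    · intro r _
      unfold mult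
      rw [if_neg]
      push_cast
      linarith [Int.natCast_nonneg r]
  rw [h2, h3, ← pow_mul, ← pow_add]
  congr 1
  ring

theorem prod_gt (a : ℕ) (ha : 1 ≤ a) : (2 * a + 1) ^ (2 * a + 1) < (a + 1) ^ (3 * a + 2) := by
  rcases Nat.lt_or_ge a 3 with h | h
  · interval_cases a <;> norm_num
  · have h1 : 2 * (2 * a + 1) ≤ (a + 1) ^ 2 := by nlinarith
    have h2 : 2 * a + 1 < 2 * (a + 1) := by omega
    have e : (a + 1) ^ (3 * a + 2) = ((a + 1) ^ 2) ^ (a + 1) * (a + 1) ^ a := by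
      rw [← pow_mul, ← pow_add]; congr 1; ring
    rw [e]
    calc (2 * a + 1) ^ (2 * a + 1) = (2 * a + 1) ^ (a + 1) * (2 * a + 1) ^ a := by
          rw [← pow_add]; congr 1; ring
      _ ≤ (2 * a + 1) ^ (a + 1) * (2 * (a + 1)) ^ a :=
          Nat.mul_le_mul_left _ (Nat.pow_le_pow_left h2.le _)
      _ = (2 * a + 1) ^ (a + 1) * 2 ^ a * (a + 1) ^ a := by rw [mul_pow]; ring
      _ < (2 * (2 * a + 1)) ^ (a + 1) * (a + 1) ^ a := by
          apply Nat.mul_lt_mul_of_pos_right _ (by positivity)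
          rw [mul_pow, mul_comm (2 ^ (a + 1))]
          apply Nat.mul_lt_mul_of_pos_left _ (by positivity)
          exact Nat.pow_lt_pow_right (by norm_num) (Nat.lt_succ_self a)
      _ ≤ ((a + 1) ^ 2) ^ (a + 1) * (a + 1) ^ a :=
          Nat.mul_le_mul_right _ (Nat.pow_le_pow_left h1 _)

theorem venturini (a : ℕ) (ha : 1 ≤ a) (ha' : (0 : ℤ) < a) :
    VenturiniPerm (2 * a + 1) (fun r => mult a r)
      (fun r => mult a r * r - (2 * a + 1) * shft a r) (perm a ha') := by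
  refine ⟨by omega, ?_, ?_, ?_, ?_, ?_⟩
  · intro r _
    simp only [mult]
    split_ifs <;> positivity
  · intro r _
    rw [Int.modEq_iff_dvd]
    refine ⟨shft a r, ?_⟩
    push_cast
    ring
  · intro x
    rw [perm_apply]
    have hp : (0 : ℤ) < 2 * a + 1 := by linarith
    have hc : (((x % ((2 * a + 1 : ℕ) : ℤ)).toNat : ℕ) : ℤ) = x % (2 * a + 1) := by
      push_cast
      exact Int.toNat_of_nonneg (Int.emod_nonneg _ hp.ne')
    simp only [hc]
    unfold TT
    push_cast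
    have e := Int.mul_ediv_add_emod x (2 * a + 1)
    linear_combination mult a (x % (2 * a + 1)) * e
  · rw [prod_mult]
    exact_mod_cast prod_gt a ha
  · rw [prod_mult, ← Int.isCoprime_iff_gcd_eq_one]
    refine IsCoprime.pow_left ?_
    refine ⟨2, -1, ?_⟩
    push_cast
    ring

theorem dvd_sub (a : ℤ) (ha : 0 < a) (x : ℤ) : a ∣ perm a ha x - x := by
  rw [perm_apply]
  obtain ⟨n, r, h0, h1, rfl⟩ := repr a ha x
  rw [TT_eq a n r h0 h1]
  unfold mult shft
  by_cases hr : r < a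
  · rw [if_pos hr, if_pos hr]
    exact ⟨-n + 2 * (a + 1), by ring⟩
  · rw [if_neg hr, if_neg hr]
    exact ⟨a * n + (r - a), by ring⟩

theorem dvd_zpow (a : ℤ) (ha : 0 < a) (i : ℤ) (x : ℤ) : a ∣ ((perm a ha) ^ i) x - x := by
  have hnat : ∀ n : ℕ, ∀ x, a ∣ ((perm a ha) ^ n) x - x := by
    intro n
    induction n with
    | zero => intro x; simp
    | succ n ih =>
      intro x
      rw [pow_succ, Equiv.Perm.mul_apply]
      have h1 := ih (perm a ha x)
      have h2 := dvd_sub a ha x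
      have := dvd_add h1 h2
      rwa [sub_add_sub_cancel] at this
  obtain ⟨n, rfl | rfl⟩ := i.eq_nat_or_neg
  · rw [zpow_natCast]; exact hnat n x
  · have h1 := hnat n (((perm a ha) ^ (-(n : ℤ))) x)
    rw [← zpow_natCast, ← Equiv.Perm.mul_apply, ← zpow_add, add_neg_cancel, zpow_zero,
      Equiv.Perm.one_apply] at h1
    rw [← dvd_neg, neg_sub]
    exact h1

theorem pos_of_pos (a : ℤ) (ha : 0 < a) (x : ℤ) (hx : 0 < x) : 0 < perm a ha x := by
  rw [perm_apply]
  have hp : 0 < 2 * a + 1 := by linarith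
  have h1 : 0 ≤ x / (2 * a + 1) := Int.ediv_nonneg hx.le hp.le
  have h0 := Int.emod_nonneg x hp.ne'
  unfold TT
  have hm : 0 < mult a (x % (2 * a + 1)) := by unfold mult; split_ifs <;> positivity
  have hs : 0 < shft a (x % (2 * a + 1)) := by
    unfold shft
    split_ifs with hr
    · positivity
    · push Not at hr
      have : 0 ≤ (a + 1) * (x % (2 * a + 1) - a) := mul_nonneg (by linarith) (by linarith)
      linarith
  have := mul_nonneg hm.le h1
  linarith

/-- The orbit of `r + a (a + 1)`, `0 ≤ r < a`, is infinite. -/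
theorem infinite_orbit (a : ℤ) (ha : 0 < a) (r : ℤ) (h0 : 0 ≤ r) (h1 : r < a) :
    (orbit (perm a ha) (r + a * (a + 1))).Infinite := by
  set y := r + a * (a + 1) with hy
  have hy0 : 0 < y := by positivity
  set z := (2 * a + 1) * (-a) + r with hz
  have hz0 : z < 0 := by nlinarith
  have hTz : perm a ha z = y := by
    rw [perm_apply, hz, TT_eq a _ _ h0 (by linarith)]
    unfold mult shft
    rw [if_pos h1, if_pos h1, hy]
    ring
  have hpos : ∀ n : ℕ, 0 < ((perm a ha) ^ n) y := by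
    intro n
    induction n with
    | zero => simpa using hy0
    | succ n ih => rw [pow_succ', Equiv.Perm.mul_apply]; exact pos_of_pos a ha _ ih
  have hne : ∀ n : ℕ, 0 < n → ((perm a ha) ^ n) y ≠ y := by
    intro n hn heq
    obtain ⟨m, rfl⟩ : ∃ m, n = m + 1 := ⟨n - 1, by omega⟩
    rw [pow_succ', Equiv.Perm.mul_apply] at heq
    have h3 : ((perm a ha) ^ m) y = z := (perm a ha).injective (heq.trans hTz.symm)
    have := hpos m
    linarith
  have hinj : Function.Injective (fun n : ℕ => ((perm a ha) ^ n) y) := by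
    intro m n hmn
    simp only at hmn
    rcases Nat.lt_trichotomy m n with h | h | h
    · exfalso
      obtain ⟨d, rfl⟩ := Nat.exists_eq_add_of_lt h
      apply hne (d + 1) (by omega)
      rw [add_assoc, pow_add, Equiv.Perm.mul_apply] at hmn
      exact (((perm a ha) ^ m).injective hmn).symm
    · exact h
    · exfalso
      obtain ⟨d, rfl⟩ := Nat.exists_eq_add_of_lt h
      apply hne (d + 1) (by omega)
      rw [add_assoc, pow_add, Equiv.Perm.mul_apply] at hmn
      exact ((perm a ha) ^ n).injective hmn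
  refine Set.infinite_of_injective_forall_mem hinj fun n => ?_
  exact ⟨n, by rw [zpow_natCast]⟩

/-- Number of integers of a residue class in `[-N, N]`. -/
theorem class_count (a : ℕ) (ha : 1 ≤ a) (x : ℤ) (N : ℕ) :
    (({y : ℤ | (a : ℤ) ∣ y - x ∧ |y| ≤ (N : ℤ)}.ncard : ℕ) : ℝ) ≤ (2 * N + 1) / a + 1 := by
  have hset : {y : ℤ | (a : ℤ) ∣ y - x ∧ |y| ≤ (N : ℤ)} =
      (((Finset.Ico (-(N : ℤ)) (N + 1)).filter (fun y => y ≡ x [ZMOD (a : ℤ)]) : Finset ℤ) :
        Set ℤ) := by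
    ext y
    rw [Finset.coe_filter]
    simp only [Set.mem_ofPred_eq, Finset.mem_Ico]
    rw [Int.modEq_comm, Int.modEq_iff_dvd, abs_le]
    constructor
    · rintro ⟨h1, h2, h3⟩; exact ⟨⟨h2, by omega⟩, h1⟩
    · rintro ⟨⟨h2, h3⟩, h1⟩; exact ⟨h1, h2, by omega⟩
  rw [hset, Set.ncard_coe_finset]
  have ha0 : (0 : ℤ) < a := by exact_mod_cast ha
  have har : (0 : ℝ) < a := by exact_mod_cast ha
  have h1 := Int.Ico_filter_modEq_card (-(N : ℤ)) (N + 1) ha0 x
  have h2 : ((((Finset.Ico (-(N : ℤ)) (N + 1)).filter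
      (fun y => y ≡ x [ZMOD (a : ℤ)])).card : ℕ) : ℝ) =
      ((max (⌈(((N : ℤ) + 1 - x : ℤ) : ℚ) / (a : ℤ)⌉ -
        ⌈((-(N : ℤ) - x : ℤ) : ℚ) / (a : ℤ)⌉) 0 : ℤ) : ℝ) := by
    have := congrArg (fun z : ℤ => (z : ℝ)) h1
    push_cast at this ⊢
    exact this
  rw [h2]
  have h3 : (⌈(((N : ℤ) + 1 - x : ℤ) : ℚ) / (a : ℤ)⌉ : ℚ) <
      (((N : ℤ) + 1 - x : ℤ) : ℚ) / (a : ℤ) + 1 := Int.ceil_lt_add_one _
  have h4 : ((-(N : ℤ) - x : ℤ) : ℚ) / (a : ℤ) ≤
      (⌈((-(N : ℤ) - x : ℤ) : ℚ) / (a : ℤ)⌉ : ℚ) := Int.le_ceil _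
  have haq : (0 : ℚ) < a := by exact_mod_cast ha
  have h5 : (((⌈(((N : ℤ) + 1 - x : ℤ) : ℚ) / (a : ℤ)⌉ -
        ⌈((-(N : ℤ) - x : ℤ) : ℚ) / (a : ℤ)⌉ : ℤ)) : ℚ) ≤ (2 * N + 1) / a + 1 := by
    push_cast at h3 h4 ⊢
    have e : (((N : ℚ) + 1 - x) / a + 1) - (-(N : ℚ) - x) / a = (2 * N + 1) / a + 1 := by
      field_simp
      ring
    linarith
  have h6 : (((⌈(((N : ℤ) + 1 - x : ℤ) : ℚ) / (a : ℤ)⌉ -
        ⌈((-(N : ℤ) - x : ℤ) : ℚ) / (a : ℤ)⌉ : ℤ)) : ℝ) ≤ (2 * N + 1) / a + 1 := by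
    have := (Rat.cast_le (K := ℝ)).mpr h5
    push_cast at this ⊢
    exact this
  rcases le_total (⌈(((N : ℤ) + 1 - x : ℤ) : ℚ) / (a : ℤ)⌉ -
        ⌈((-(N : ℤ) - x : ℤ) : ℚ) / (a : ℤ)⌉) 0 with hle | hle
  · rw [max_eq_right hle]
    push_cast
    positivity
  · rw [max_eq_left hle]
    exact h6

/-- **Main result.** -/
theorem result (a : ℕ) (ha : 1 ≤ a) :
    ∃ (p : ℕ) (t u : ℕ → ℤ) (T : Equiv.Perm ℤ), VenturiniPerm p t u T ∧
      (∀ x : ℤ, (a : ℤ) ∣ T x - x) ∧
      (∀ x : ℤ, ∃ y : ℤ, (a : ℤ) ∣ y - x ∧ (orbit T y).Infinite) ∧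
      (∀ (x : ℤ) (N : ℕ), (((orbit T x ∩ {y | |y| ≤ (N : ℤ)}).ncard : ℕ) : ℝ) ≤
        (2 * N + 1) / a + 1) := by
  have ha' : (0 : ℤ) < a := by exact_mod_cast ha
  refine ⟨2 * a + 1, _, _, perm a ha', venturini a ha ha', dvd_sub a ha', ?_, ?_⟩
  · intro x
    have g0 := Int.emod_nonneg x ha'.ne'
    have g1 := Int.emod_lt_of_pos x ha'
    refine ⟨x % a + a * (a + 1), ?_, infinite_orbit a ha' _ g0 g1⟩
    have e := Int.mul_ediv_add_emod x a
    exact ⟨a + 1 - x / a, by linear_combination e⟩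
  · intro x N
    refine le_trans ?_ (class_count a ha x N)
    have hsub : orbit (perm a ha') x ∩ {y | |y| ≤ (N : ℤ)} ⊆
        {y : ℤ | (a : ℤ) ∣ y - x ∧ |y| ≤ (N : ℤ)} := by
      rintro y ⟨⟨i, rfl⟩, hy⟩
      exact ⟨dvd_zpow a ha' i x, hy⟩
    have hfin : {y : ℤ | (a : ℤ) ∣ y - x ∧ |y| ≤ (N : ℤ)}.Finite := by
      refine (Set.finite_Icc (-(N : ℤ)) N).subset ?_
      rintro y ⟨_, hy⟩
      exact abs_le.mp hy
    exact_mod_cast Set.ncard_le_ncard hsub hfin

end Pool.Agent.Variants.MP_153093_nt.SmallDensity
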